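import Pool.Agent.H355Z.ANSPoly

set_option autoImplicit false

namespace Pool.Agent.Results.MP_8c22a7_lc.ExactGrowth

open Polynomial Filter Asymptotics Pool.Agent.H355Z.ANS

/-- Let `L` be an infinite language over a finite ordered alphabet, ordered genealogically, and let
`P` be a rational polynomial of degree at least two taking natural values on the naturals. If the
language of representations of the value set of `P` is regular, then `L` is polynomial, and the
least `k` such that the number of words of length `n` of `L` is `O(n ^ k)` is `deg P - 1`. -/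
theorem result {A : Type} [Fintype A] [LinearOrder A] (L : Language A)
    (hL : Set.Infinite (L : Set (List A))) (P : ℚ[X])
    (hP : ∀ n : ℕ, ∃ m : ℕ, P.eval (n : ℚ) = (m : ℚ)) (hd : 2 ≤ P.natDegree)
    (hreg : (rep L {m : ℕ | ∃ n : ℕ, P.eval (n : ℚ) = (m : ℚ)}).IsRegular) :
    IsLeast {k : ℕ | (fun n : ℕ => (count L n : ℝ)) =O[atTop] fun n : ℕ => (n : ℝ) ^ k}
      (P.natDegree - 1) :=
  main L hL P hP hd hreg

end Pool.Agent.Results.MP_8c22a7_lc.ExactGrowth
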